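import Pool.Agent.Lib.MP_465591_an.N.C.All
import Pool.Agent.Lib.MP_465591_an.N.H.All
import Pool.Agent.Lib.LC465.Q1
import Pool.Agent.Lib.LC465.Ex
import Pool.Agent.Lib.LC465.Cnt
import Pool.Agent.Lib.LC465.Ord
import Pool.Agent.Lib.LC465.Q4
import Pool.Agent.Lib.LC465.Sgn
import Pool.Agent.Lib.LC465.Bmp
import Pool.Agent.Lib.LC465.Dv
import Pool.Agent.Lib.LC465.N1
import Pool.Agent.Lib.LC465.N2
import Pool.Agent.Lib.LC465.Nl
import Pool.Agent.Lib.LC465.Nk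
import Pool.Agent.Lib.LC465.Nv
import Pool.Agent.Lib.LC465.LocC
import Pool.Agent.Lib.LC465.LocG
import Pool.Agent.Lib.LC465.Inq
import Pool.Agent.Lib.LC465.Fd
import Pool.Agent.Lib.LC465.Fi
import Pool.Agent.Lib.LC465.Fk
import Pool.Agent.Lib.LC465.Fa
import Pool.Agent.Lib.LC465.Par
import Pool.Agent.Lib.LC465.Dat
import Pool.Agent.Lib.LC465.Mx
import Pool.Agent.Lib.LC465.Hur
import Pool.Agent.Lib.LC465.Sta
import Pool.Agent.Lib.LC465.Clo

/-!
# MP_465591_an: univalent maps embedded in Loewner chains are not dense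

There is an entire map `F` of `ℂ²`, injective on a ball of radius `r > 1`, `F 0 = 0`, `DF(0) = I`, whose
restriction to the unit ball is not in the closure of `S¹` (locally uniform convergence on the unit ball).
-/

set_option autoImplicit false

open Metric Set Filter

namespace Pool.Agent.Results.MP_465591_an.NotDense

open Pool.Agent.Lib.MP_465591_an

theorem result :
    ∃ (r : ℝ) (F : Cn 2 → Cn 2), 1 < r ∧ Differentiable ℂ F ∧ IsS 2 r F ∧
      ∀ f : ℕ → Cn 2 → Cn 2,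
        (∀ j : ℕ, ∃ L : ℝ → Cn 2 → Cn 2, Chain 2 L ∧ EqOn (L 0) (f j) (ball 0 1)) →
        ¬ TendstoLocallyUniformlyOn f F atTop (ball 0 1) := by
  have h0 : LC465.S_Ex := LC465.tEx
  have h1 : LC465.S_Cnt := LC465.tCnt h0
  have h2 : LC465.S_Ord := LC465.tOrd LC465.tQ1 h0 h1
  have h3 : LC465.S_Bmp := LC465.tBmp
  have h4 : LC465.S_N1 := LC465.tN1 h3 (LC465.tDv h3)
  have h5 : LC465.S_N2 := LC465.tN2 h3
  have h6 : LC465.S_Nl := LC465.tNl h4 h5 LC465.tSgn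
  have h7 : LC465.S_Nk := LC465.tNk h5
  have h8 : LC465.S_Nv := LC465.tNv h1 h2
  have h9 : LC465.S_LocC := LC465.tLocC h0 h2 h8
  have h10 : LC465.S_Inq := LC465.tInq h4 h7 h9 (LC465.tLocG h6 h7)
  have h11 : LC465.S_Fi := LC465.tFi LC465.tQ1 LC465.tQ4 LC465.tFd
  have hInv : S_Inv := t_Inv (t_Osg t_One t_ZC t_Red)
  obtain ⟨F, s, r, a, b, γ, K0, c, NN, c0, C1, c1, ε, hD⟩ :=
    LC465.tDat h0 h1 h4 h7 h8 h9 h10 LC465.tFd h11 LC465.tFk (LC465.tFa LC465.tFd) LC465.tPar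
  exact ⟨r, F, hD.hr, hD.hF, ⟨hD.hF.differentiableOn, hD.hinj, hD.hF0, hD.hFd⟩,
    LC465.tClo (NC.cmain Pool.Agent.N465591.tH) (LC465.tMx hInv) (LC465.tSta (LC465.tHur hInv))
      F s r a b γ K0 c NN c0 C1 c1 ε hD⟩

end Pool.Agent.Results.MP_465591_an.NotDense
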