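import Pool.Agent.Lib.MP_465591_an.Final
import Pool.Agent.Lib.MP_465591_an.One
import Pool.Agent.Lib.MP_465591_an.ZC
import Pool.Agent.Lib.MP_465591_an.Red
import Pool.Agent.Lib.MP_465591_an.Osg
import Pool.Agent.Lib.MP_465591_an.Inv
import Pool.Agent.Lib.MP_465591_an.Pick
import Pool.Agent.Lib.MP_465591_an.Near
import Pool.Agent.Lib.MP_465591_an.Sur
import Pool.Agent.Lib.MP_465591_an.Tr
import Pool.Agent.Lib.MP_465591_an.Desc
import Pool.Agent.Lib.MP_465591_an.NR
import Pool.Agent.Lib.MP_465591_an.Ax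
import Pool.Agent.Lib.MP_465591_an.Gam
import Pool.Agent.Lib.MP_465591_an.Mul
import Pool.Agent.Lib.MP_465591_an.Col
import Pool.Agent.Lib.MP_465591_an.Inj
import Pool.Agent.Lib.MP_465591_an.Hol
import Pool.Agent.Lib.MP_465591_an.Circ

/-!
# MP_465591_an: univalent maps of large balls without symmetric and without Runge Loewner chains

For all `n = k + 2 ≥ 2` and all `r > 1` there is `F` in `S(r 𝔹ⁿ)` which commutes with the circle group of
the matrices `diag(u, u⁻¹, 1, …, 1)`, `|u| = 1`, such that for every normalized Loewner chain `L` with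
`L 0 = F` on `𝔹ⁿ`: every `L t (𝔹ⁿ)` contains the circle `|x| = 2 r²` of the first axis but not the disc
which it bounds, every `L t (𝔹ⁿ)` is not Runge, and not all the `L t` commute with the circle group.

The example is `F(z) = (z₁ e^(Am)/Γ(1+m), z₂ e^(-Am+iπm)/Γ(1-m), z₃, …)`, `m = 4 z₁ z₂`, `e^A = 4 r²`.
-/

set_option autoImplicit false

open Metric Set

namespace Pool.Agent.Results.MP_465591_an.SymmetricChains

open Pool.Agent.Lib.MP_465591_an

theorem result (k : ℕ) (r : ℝ) (hr : 1 < r) :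
    ∃ F : Cn (k + 2) → Cn (k + 2), IsS (k + 2) r F ∧ Eqv k r F ∧
      ∀ L : ℝ → Cn (k + 2) → Cn (k + 2), Chain (k + 2) L → EqOn (L 0) F (ball 0 1) →
        (∀ t, 0 ≤ t →
          (∀ x : ℂ, ‖x‖ = 2 * r ^ 2 → x • e1 k ∈ L t '' ball 0 1) ∧
          ¬ (∀ x : ℂ, ‖x‖ ≤ 2 * r ^ 2 → x • e1 k ∈ L t '' ball 0 1) ∧
          ¬ Runge (k + 2) (L t '' ball 0 1)) ∧
        ¬ ∀ t, 0 ≤ t → Eqv k 1 (L t) := by
  have hOsg : S_Osg := t_Osg t_One t_ZC t_Red
  have hInv : S_Inv := t_Inv hOsg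
  have hNear : S_Near := t_Near t_Pick
  have hSur : S_Sur := t_Sur hNear
  have hTr : S_Tr := t_Tr hInv
  have hDesc : S_Desc := t_Desc hInv hNear hSur hTr
  have hCol : S_Col := t_Col t_Gam
  exact t_final hDesc (t_NR hInv) t_Ax (t_Inj t_Gam t_Mul hCol) (t_Hol t_Gam) (t_Circ t_Gam) k r hr

end Pool.Agent.Results.MP_465591_an.SymmetricChains
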